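import Mathlib

namespace Pool.Agent.Results.MP_7ad8d2_an.LowerBound

open Matrix Finset

noncomputable def rowNorm {n : ℕ} (A : Matrix (Fin n) (Fin n) ℝ) : ℝ := ⨆ i, ∑ j, |A i j|

lemma quad {n : ℕ} (hn : 3 ≤ n) (J : Matrix (Fin n) (Fin n) ℝ) (hs : J.IsSymm)
    (hpos : ∀ i j, 0 < J i j) (hΔ : ∀ i, 0 ≤ J i i - ∑ j ∈ univ.erase i, J i j)
    (x : Fin n → ℝ) (hx : x ⬝ᵥ (J *ᵥ x) ≤ 0) : x = 0 := by
  have hsym : ∀ i j, J j i = J i j := fun i j => hs.apply i j
  have e1 : x ⬝ᵥ (J *ᵥ x) = ∑ i, (J i i * x i ^ 2 + ∑ j ∈ univ.erase i, J i j * (x i * x j)) := by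
    simp only [dotProduct, mulVec]
    refine sum_congr rfl fun i _ => ?_
    rw [← add_sum_erase _ _ (mem_univ i), mul_add, mul_sum]
    congr 1
    · ring
    · exact sum_congr rfl fun j _ => by ring
  have e2 : ∑ i, ∑ j ∈ univ.erase i, J i j * x j ^ 2 =
      ∑ i, ∑ j ∈ univ.erase i, J i j * x i ^ 2 := by
    rw [sum_comm' (s' := fun j => univ.erase j) (t' := univ)]
    · exact sum_congr rfl fun i _ => sum_congr rfl fun j _ => by rw [hsym]
    · intro i j; simp [eq_comm]
  have e3 : 2 * (x ⬝ᵥ (J *ᵥ x)) = ∑ i, (2 * (J i i - ∑ j ∈ univ.erase i, J i j) * x i ^ 2 +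
      ∑ j ∈ univ.erase i, J i j * (x i + x j) ^ 2) := by
    have : ∀ i, ∑ j ∈ univ.erase i, J i j * (x i + x j) ^ 2 =
        (∑ j ∈ univ.erase i, J i j) * x i ^ 2 + 2 * ∑ j ∈ univ.erase i, J i j * (x i * x j) +
          ∑ j ∈ univ.erase i, J i j * x j ^ 2 := by
      intro i
      rw [sum_mul, mul_sum, ← sum_add_distrib, ← sum_add_distrib]
      exact sum_congr rfl fun j _ => by ring
    simp only [this, e1, sum_add_distrib, e2, ← sum_mul, ← mul_sum]
    rw [mul_add, mul_sum, ← sub_eq_zero]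
    simp only [mul_sum, ← sum_add_distrib, ← sum_sub_distrib]
    exact sum_eq_zero fun i _ => by
      simp only [← mul_sum]
      ring
  have hnn : ∀ i ∈ (univ : Finset (Fin n)), 0 ≤ 2 * (J i i - ∑ j ∈ univ.erase i, J i j) * x i ^ 2 +
      ∑ j ∈ univ.erase i, J i j * (x i + x j) ^ 2 := fun i _ =>
    add_nonneg (mul_nonneg (by linarith [hΔ i]) (sq_nonneg _))
      (sum_nonneg fun j _ => mul_nonneg (hpos i j).le (sq_nonneg _))
  have h0 := (sum_eq_zero_iff_of_nonneg hnn).1
    (le_antisymm (by rw [← e3]; linarith) (sum_nonneg hnn))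
  have hp : ∀ i j, j ≠ i → x i + x j = 0 := by
    intro i j hij
    have h1 := h0 i (mem_univ i)
    have h2 : 0 ≤ 2 * (J i i - ∑ j ∈ univ.erase i, J i j) * x i ^ 2 :=
      mul_nonneg (by linarith [hΔ i]) (sq_nonneg _)
    have h3 : J i j * (x i + x j) ^ 2 ≤ ∑ j ∈ univ.erase i, J i j * (x i + x j) ^ 2 :=
      single_le_sum (f := fun j => J i j * (x i + x j) ^ 2)
        (fun j _ => mul_nonneg (hpos i j).le (sq_nonneg _)) (by simp [hij])
    have h4 : (x i + x j) ^ 2 ≤ 0 := by
      by_contra h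
      push Not at h
      have := mul_pos (hpos i j) h
      linarith
    exact pow_eq_zero_iff two_ne_zero |>.1 (le_antisymm h4 (sq_nonneg _))
  ext i
  have hc : 1 < (univ.erase i).card := by simp; omega
  obtain ⟨j, hj, k, hk, hjk⟩ := one_lt_card.1 hc
  have h1 := hp i j (mem_erase.1 hj).1
  have h2 := hp i k (mem_erase.1 hk).1
  have h3 := hp k j hjk
  simp only [Pi.zero_apply]
  linarith

lemma test {n : ℕ} (hn : 3 ≤ n) (m δ t b : ℝ) (hb : 0 ≤ b) (hbt : b < t) (hδ : 0 ≤ δ)
    (k1 : δ * t + (t - b) * (m * (n - 1)) = 1)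
    (k2 : m * (t - b) - b * δ - 2 * b * (m * (n - 2)) = -1)
    (J : Matrix (Fin n) (Fin n) ℝ) (hs : J.IsSymm)
    (hpos : ∀ i j, 0 < J i j) (hle : ∀ i j, i ≠ j → J i j ≤ m)
    (hΔ : ∀ i, 0 ≤ J i i - ∑ j ∈ univ.erase i, J i j ∧ J i i - ∑ j ∈ univ.erase i, J i j ≤ δ)
    (i : Fin n) : ∃ y : Fin n → ℝ, y i = t ∧ (∀ k, |(J *ᵥ y) k| ≤ 1) ∧
      ((J *ᵥ y) i = 1 → (J i i - ∑ j ∈ univ.erase i, J i j = δ ∧ ∀ k, k ≠ i → J i k = m)) := by
  have hsym : ∀ i j, J j i = J i j := fun i j => hs.apply i j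
  have htb : 0 < t - b := by linarith
  have hlt : ∀ k j, j ≠ k → J k j < J k k := by
    intro k j hjk
    have hc : 0 < ((univ.erase k).erase j).card := by
      rw [card_erase_of_mem (by simp [hjk])]; simp; omega
    have h1 : 0 < ∑ l ∈ (univ.erase k).erase j, J k l :=
      sum_pos (fun l _ => hpos k l) (card_pos.1 hc)
    have h2 := add_sum_erase (univ.erase k) (J k) (show j ∈ univ.erase k by simp [hjk])
    linarith [(hΔ k).1]
  set η : Fin n → ℝ := fun k => (m - J i k) * (t - b) / J k k with hη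
  have hη0 : ∀ k, k ≠ i → 0 ≤ η k := fun k hk =>
    div_nonneg (mul_nonneg (by linarith [hle i k hk.symm]) htb.le) (hpos k k).le
  have hηe : ∀ k, J k k * η k = (m - J i k) * (t - b) := fun k => by
    simp only [hη]; field_simp [(hpos k k).ne']
  have hcard : ((univ.erase i).card : ℝ) = n - 1 := by
    rw [card_erase_of_mem (mem_univ i), card_univ, Fintype.card_fin, Nat.cast_sub (by omega)]
    simp
  have hrow : ∀ k, (J *ᵥ fun k => if k = i then t else η k - b) k =
      J k i * t + ∑ j ∈ univ.erase i, J k j * (η j - b) := by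
    intro k
    simp only [mulVec, dotProduct]
    rw [← add_sum_erase _ _ (mem_univ i), if_pos rfl]
    congr 1
    exact sum_congr rfl fun j hj => by rw [if_neg (mem_erase.1 hj).1]
  have hi : J i i * t + ∑ j ∈ univ.erase i, J i j * (η j - b) =
      1 - ((δ - (J i i - ∑ j ∈ univ.erase i, J i j)) * t +
        ∑ j ∈ univ.erase i, (J j j - J i j) * η j) := by
    have : ∑ j ∈ univ.erase i, (J j j - J i j) * η j =
        ∑ j ∈ univ.erase i, (m * (t - b) - J i j * t - J i j * (η j - b)) :=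
      sum_congr rfl fun j _ => by linear_combination hηe j
    rw [this, sum_sub_distrib, sum_sub_distrib, sum_const, nsmul_eq_mul, hcard, ← sum_mul]
    linear_combination k1
  have hterm : ∀ j ∈ univ.erase i, 0 ≤ (J j j - J i j) * η j := fun j hj =>
    mul_nonneg (by rw [hsym j i]; linarith [hlt j i (mem_erase.1 hj).1.symm])
      (hη0 j (mem_erase.1 hj).1)
  have hd : 0 ≤ (δ - (J i i - ∑ j ∈ univ.erase i, J i j)) * t :=
    mul_nonneg (by linarith [(hΔ i).2]) (by linarith)
  refine ⟨fun k => if k = i then t else η k - b, by simp, fun k => ?_, fun h => ?_⟩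
  · rw [hrow]
    by_cases hk : k = i
    · subst hk
      rw [abs_le]
      refine ⟨?_, by rw [hi]; linarith [sum_nonneg hterm]⟩
      have h1 : ∑ j ∈ univ.erase k, J k j * (-t) ≤ ∑ j ∈ univ.erase k, J k j * (η j - b) :=
        sum_le_sum fun j hj => mul_le_mul_of_nonneg_left
          (by linarith [hη0 j (mem_erase.1 hj).1]) (hpos k j).le
      rw [← sum_mul] at h1
      nlinarith [(hΔ k).1]
    · have hk' : k ∈ univ.erase i := by simp [hk]
      have hcard2 : (((univ.erase i).erase k).card : ℝ) = n - 2 := by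
        rw [card_erase_of_mem hk', card_erase_of_mem (mem_univ i), card_univ, Fintype.card_fin,
          Nat.cast_sub (by omega), Nat.cast_sub (by omega)]
        push_cast; ring
      rw [← add_sum_erase _ _ hk']
      have hsw : ∑ j ∈ univ.erase k, J k j = J k i + ∑ j ∈ (univ.erase i).erase k, J k j := by
        rw [erase_right_comm, add_sum_erase _ _ (by simp [Ne.symm hk])]
      have he1 : ∑ j ∈ (univ.erase i).erase k, J k j ≤ m * (n - 2) := by
        have := sum_le_card_nsmul ((univ.erase i).erase k) (J k) m fun j hj =>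
          hle k j (mem_erase.1 hj).1.symm
        rwa [nsmul_eq_mul, hcard2, mul_comm] at this
      have he0 : 0 ≤ ∑ j ∈ (univ.erase i).erase k, J k j := sum_nonneg fun j _ => (hpos k j).le
      have hs1 : ∑ j ∈ (univ.erase i).erase k, J k j * (η j - b) =
          ∑ j ∈ (univ.erase i).erase k, J k j * η j -
            (∑ j ∈ (univ.erase i).erase k, J k j) * b := by
        rw [sum_mul, ← sum_sub_distrib]; exact sum_congr rfl fun j _ => by ring
      have hs2 : 0 ≤ ∑ j ∈ (univ.erase i).erase k, J k j * η j := sum_nonneg fun j hj =>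
        mul_nonneg (hpos k j).le (hη0 j (mem_erase.1 (mem_erase.1 hj).2).1)
      have hs3 : ∑ j ∈ (univ.erase i).erase k, J k j * η j ≤ m * (t - b) * (n - 2) := by
        have := sum_le_card_nsmul ((univ.erase i).erase k) (fun j => J k j * η j) (m * (t - b))
          fun j hj => by
            have h1 : J k j ≤ J j j := by
              rw [hsym j k]; exact (hlt j k (mem_erase.1 hj).1.symm).le
            have h2 := mul_le_mul_of_nonneg_right h1 (hη0 j (mem_erase.1 (mem_erase.1 hj).2).1)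
            have h3 := mul_pos (hpos i j) htb
            nlinarith [hηe j]
        rwa [nsmul_eq_mul, hcard2, mul_comm] at this
      have h1 := hΔ k
      rw [hsw] at h1
      have h2 := hηe k
      rw [← hsym i k] at h2
      have h3 := mul_le_mul_of_nonneg_left h1.2 hb
      have h4 := mul_nonneg hb h1.1
      have h5 := mul_le_mul_of_nonneg_left he1 hb
      have h6 := mul_nonneg hb he0
      have h7 : 0 ≤ δ * t := mul_nonneg hδ (by linarith)
      rw [hs1, abs_le]
      constructor <;> nlinarith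
  · rw [hrow, hi] at h
    have h1 := sum_nonneg hterm
    have h2 : (δ - (J i i - ∑ j ∈ univ.erase i, J i j)) * t = 0 := by linarith
    have h3 := (sum_eq_zero_iff_of_nonneg hterm).1 (by linarith)
    refine ⟨?_, fun k hk => ?_⟩
    · rcases mul_eq_zero.1 h2 with h | h <;> linarith
    · have h4 := h3 k (by simp [hk])
      have h5 : J i k < J k k := by rw [hsym k i]; exact hlt k i hk.symm
      have h6 : η k = 0 := by
        rcases mul_eq_zero.1 h4 with h | h
        · linarith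
        · exact h
      have h7 := hηe k
      rw [h6, mul_zero] at h7
      rcases mul_eq_zero.1 h7.symm with h | h <;> linarith

theorem result (n : ℕ) (hn : 3 ≤ n) (m δ : ℝ) (hm : 0 < m) (hδ : 0 ≤ δ) (α : ℝ)
    (hα : α = m * (n - 2) + δ) (S : Matrix (Fin n) (Fin n) ℝ)
    (hS : S = α • (1 : Matrix (Fin n) (Fin n) ℝ) + m • of fun _ _ => (1 : ℝ))
    (J : Matrix (Fin n) (Fin n) ℝ) (hs : J.IsSymm) (hpos : ∀ i j, 0 < J i j)
    (hle : ∀ i j, i ≠ j → J i j ≤ m)
    (hΔ : ∀ i, 0 ≤ J i i - ∑ j ∈ univ.erase i, J i j ∧ J i i - ∑ j ∈ univ.erase i, J i j ≤ δ) :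
    IsUnit J ∧ IsUnit S ∧ rowNorm S⁻¹ = (α + 2 * m * (n - 1)) / (α * (α + m * n)) ∧
      rowNorm S⁻¹ ≤ rowNorm J⁻¹ ∧ (rowNorm J⁻¹ = rowNorm S⁻¹ ↔ J = S) := by
  have hn' : (3 : ℝ) ≤ n := by exact_mod_cast hn
  haveI : Nonempty (Fin n) := ⟨⟨0, by omega⟩⟩
  have hα0 : 0 < α := by rw [hα]; nlinarith
  have hβ0 : 0 < α + m * n := by positivity
  have hcard : ∀ i : Fin n, ((univ.erase i).card : ℝ) = n - 1 := fun i => by
    rw [card_erase_of_mem (mem_univ i), card_univ, Fintype.card_fin, Nat.cast_sub (by omega)]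
    simp
  set q := m / (α * (α + m * n)) with hq
  have hq0 : 0 < q := by positivity
  have hinv : S * ((1 / α) • (1 : Matrix (Fin n) (Fin n) ℝ) - q • of fun _ _ => (1 : ℝ)) = 1 := by
    have : (of fun _ _ => (1 : ℝ) : Matrix (Fin n) (Fin n) ℝ) * (of fun _ _ => (1 : ℝ)) =
        (n : ℝ) • (of fun _ _ => (1 : ℝ) : Matrix (Fin n) (Fin n) ℝ) := by
      ext a b; simp [mul_apply]
    rw [hS]
    simp only [mul_sub, add_mul, smul_mul_assoc, mul_smul_comm, Matrix.one_mul, Matrix.mul_one, this]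
    ext a b
    simp only [Matrix.sub_apply, Matrix.add_apply, Matrix.smul_apply, of_apply, smul_eq_mul, hq]
    field_simp
    ring
  have hSn : rowNorm S⁻¹ = (α + 2 * m * (n - 1)) / (α * (α + m * n)) := by
    rw [inv_eq_right_inv hinv]
    unfold rowNorm
    rw [← ciSup_const (ι := Fin n) (a := (α + 2 * m * (n - 1)) / (α * (α + m * n)))]
    congr 1; ext i
    rw [← add_sum_erase _ _ (mem_univ i), sum_congr rfl (g := fun _ => q) fun j hj => by
      simp [one_apply_ne (mem_erase.1 hj).1.symm, abs_of_pos hq0]]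
    have : 0 ≤ 1 / α - q := by
      rw [hq, sub_nonneg, div_le_div_iff₀ (by positivity) hα0]
      nlinarith [mul_pos hm hα0]
    rw [sum_const, nsmul_eq_mul, hcard]
    simp only [Matrix.sub_apply, Matrix.smul_apply, one_apply_eq, of_apply, smul_eq_mul, mul_one]
    rw [abs_of_nonneg this, hq]
    field_simp
    ring
  have hJ : IsUnit J := by
    rw [← mulVec_injective_iff_isUnit]
    intro x y h
    have := quad hn J hs hpos (fun i => (hΔ i).1) (x - y) (by rw [mulVec_sub, h]; simp)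
    exact sub_eq_zero.1 this
  have hJd : IsUnit J.det := (isUnit_iff_isUnit_det J).1 hJ
  set t := (α + 2 * m * (n - 1)) / (α * (α + m * n)) with ht
  have key : ∀ i, t ≤ ∑ j, |J⁻¹ i j| ∧ (∑ j, |J⁻¹ i j| ≤ t →
      (J i i - ∑ j ∈ univ.erase i, J i j = δ ∧ ∀ k, k ≠ i → J i k = m)) := by
    intro i
    have hδ' : δ = α - m * (n - 2) := by linarith
    obtain ⟨y, hy, hz, he⟩ := test hn m δ t ((α + 2 * m) / (α * (α + m * n))) (by positivity)
      (by rw [ht]; apply div_lt_div_of_pos_right _ (by positivity); nlinarith) hδ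
      (by rw [ht, hδ']; field_simp; ring) (by rw [ht, hδ']; field_simp; ring) J hs hpos hle hΔ i
    have h1 : t = ∑ j, J⁻¹ i j * (J *ᵥ y) j := by
      have : J⁻¹ *ᵥ (J *ᵥ y) = y := by rw [mulVec_mulVec, nonsing_inv_mul _ hJd, one_mulVec]
      rw [← hy, ← congrFun this i]; rfl
    have h2 : ∀ j ∈ (univ : Finset (Fin n)), J⁻¹ i j * (J *ᵥ y) j ≤ |J⁻¹ i j| := fun j _ =>
      (le_abs_self _).trans (by rw [abs_mul]; exact mul_le_of_le_one_right (abs_nonneg _) (hz j))
    refine ⟨h1 ▸ sum_le_sum h2, fun h => he ?_⟩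
    have h3 := (sum_eq_sum_iff_of_le h2).1 (le_antisymm (sum_le_sum h2) (h1 ▸ h)) i (mem_univ i)
    have h4 : 0 < J⁻¹ i i := by
      by_contra hh
      push Not at hh
      have e : J *ᵥ (J⁻¹ *ᵥ Pi.single i 1) = Pi.single i 1 := by
        rw [mulVec_mulVec, mul_nonsing_inv _ hJd, one_mulVec]
      have := quad hn J hs hpos (fun i => (hΔ i).1) (J⁻¹ *ᵥ Pi.single i 1) (by
        rw [e]; simpa using hh)
      rw [this, mulVec_zero] at e
      simpa using congrFun e i
    rw [abs_of_pos h4] at h3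
    exact mul_left_cancel₀ h4.ne' (by rw [h3, mul_one])
  have hle' : ∀ i, ∑ j, |J⁻¹ i j| ≤ rowNorm J⁻¹ := fun i =>
    le_ciSup (f := fun i => ∑ j, |J⁻¹ i j|) (Finite.bddAbove_range _) i
  refine ⟨hJ, (isUnit_iff_isUnit_det S).2 (isUnit_det_of_right_inverse hinv), hSn, ?_,
    fun h => ?_, fun h => by rw [h]⟩
  · rw [hSn]
    obtain ⟨i⟩ := (inferInstance : Nonempty (Fin n))
    exact (key i).1.trans (hle' i)
  · rw [hSn] at h
    ext i j
    obtain ⟨h1, h2⟩ := (key i).2 (h ▸ hle' i)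
    by_cases hij : j = i
    · subst hij
      rw [sum_congr rfl (g := fun _ => m) fun k hk => h2 k (mem_erase.1 hk).1, sum_const,
        nsmul_eq_mul, hcard] at h1
      simp [hS]
      linarith
    · rw [h2 j hij]; simp [hS, one_apply_ne (Ne.symm hij)]

end Pool.Agent.Results.MP_7ad8d2_an.LowerBound
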